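import Pool.Agent.Y766.R8.Stm
import Pool.Agent.Helper112.Arith

/-!
# Few small elements in thin subgroups of the unit group modulo `d`
-/

set_option autoImplicit false

namespace Pool.Agent.Y655.R8

open Finset
open Pool.Agent.Y766.R8 (NU S_SUB)

/-- the classes occupied by a subgroup of the units: counting up to `M` -/
theorem NU_le {d : ℕ} [NeZero d] (U : Subgroup (ZMod d)ˣ) (M : ℕ) :
    NU U M ≤ Nat.card U * (M / d + 1) := by
  classical
  unfold NU
  have hU : Nat.card U = (univ.filter fun u : (ZMod d)ˣ => u ∈ U).card := by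
    rw [Nat.card_eq_fintype_card, Fintype.card_subtype]
  rw [hU]
  have h1 : ((univ.filter fun u : (ZMod d)ˣ => u ∈ U).image fun u : (ZMod d)ˣ => (u : ZMod d)).card ≤
      (univ.filter fun u : (ZMod d)ˣ => u ∈ U).card := card_image_le
  refine le_trans ?_ (Nat.mul_le_mul_right _ h1)
  rw [← card_range (M / d + 1), ← card_product]
  refine card_le_card_of_injOn (fun n : ℕ => ((n : ZMod d), n / d)) ?_ ?_
  · intro n hn
    simp only [coe_filter, mem_Icc, Set.mem_ofPred_eq] at hn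
    obtain ⟨⟨h1, h2⟩, u, hu, h3⟩ := hn
    simp only [coe_product, coe_image, coe_filter, mem_univ, true_and, coe_range, Set.mem_prod,
      Set.mem_image, Set.mem_ofPred_eq, Set.mem_Iio]
    exact ⟨⟨u, hu, h3⟩, Nat.lt_succ_of_le (Nat.div_le_div_right h2)⟩
  · intro n _ n' _ h
    simp only [Prod.mk.injEq] at h
    have h4 : n % d = n' % d := (ZMod.natCast_eq_natCast_iff' n n' d).1 h.1
    rw [← Nat.div_add_mod n d, ← Nat.div_add_mod n' d, h4, h.2]

/-- products of `j` small elements -/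
theorem NU_pow {d : ℕ} [NeZero d] (U : Subgroup (ZMod d)ˣ) (K j D : ℕ)
    (hD : ∀ n, 1 ≤ n → n ≤ K ^ j → n.divisors.card ≤ D) :
    NU U K ^ j ≤ Nat.card U * (K ^ j / d + 1) * D ^ j := by
  classical
  obtain ⟨S, hS⟩ : ∃ S : Finset ℕ, S = (Icc 1 K).filter
    (fun k : ℕ => ∃ u ∈ U, ((u : (ZMod d)ˣ) : ZMod d) = (k : ZMod d)) := ⟨_, rfl⟩
  have hN : NU U K = S.card := by
    rw [hS]
    unfold NU
    congr
  obtain ⟨T, hT⟩ : ∃ T : Finset ℕ, T = (Icc 1 (K ^ j)).filter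
    (fun k : ℕ => ∃ u ∈ U, ((u : (ZMod d)ˣ) : ZMod d) = (k : ZMod d)) := ⟨_, rfl⟩
  have hNT : NU U (K ^ j) = T.card := by
    rw [hT]
    unfold NU
    congr
  have h1 : NU U K ^ j = (Fintype.piFinset fun _ : Fin j => S).card := by
    rw [Fintype.card_piFinset, prod_const, card_univ, Fintype.card_fin, hN]
  have hmem : ∀ f ∈ (Fintype.piFinset fun _ : Fin j => S), ∏ i, f i ∈ T := by
    intro f hf
    rw [Fintype.mem_piFinset] at hf
    simp only [hS, mem_filter, mem_Icc] at hf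
    rw [hT, mem_filter, mem_Icc]
    refine ⟨⟨?_, ?_⟩, ?_⟩
    · exact Nat.one_le_iff_ne_zero.2 (prod_ne_zero_iff.2 fun i _ => by have := (hf i).1.1; omega)
    · calc ∏ i, f i ≤ ∏ _i : Fin j, K := prod_le_prod' fun i _ => (hf i).1.2
        _ = K ^ j := by rw [prod_const, card_univ, Fintype.card_fin]
    · choose u hu using fun i => (hf i).2
      refine ⟨∏ i, u i, Subgroup.prod_mem _ fun i _ => (hu i).1, ?_⟩
      push_cast
      exact prod_congr rfl fun i _ => (hu i).2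
  have hfib : ∀ n ∈ T, ((Fintype.piFinset fun _ : Fin j => S).filter
      fun f => ∏ i, f i = n).card ≤ D ^ j := by
    intro n hn
    rw [hT, mem_filter, mem_Icc] at hn
    have h2 : ((Fintype.piFinset fun _ : Fin j => S).filter fun f => ∏ i, f i = n) ⊆
        Fintype.piFinset fun _ : Fin j => n.divisors := by
      intro f hf
      rw [mem_filter] at hf
      rw [Fintype.mem_piFinset]
      intro i
      rw [Nat.mem_divisors]
      refine ⟨?_, by omega⟩
      rw [← hf.2]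
      exact dvd_prod_of_mem f (mem_univ i)
    refine (card_le_card h2).trans ?_
    rw [Fintype.card_piFinset, prod_const, card_univ, Fintype.card_fin]
    exact Nat.pow_le_pow_left (hD n hn.1.1 hn.1.2) j
  rw [h1]
  calc (Fintype.piFinset fun _ : Fin j => S).card ≤ D ^ j * T.card :=
        card_le_mul_card_image_of_maps_to hmem (D ^ j) hfib
    _ ≤ D ^ j * (Nat.card U * (K ^ j / d + 1)) := by
        rw [← hNT]
        exact Nat.mul_le_mul_left _ (NU_le U (K ^ j))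
    _ = Nat.card U * (K ^ j / d + 1) * D ^ j := by ring

theorem NU_le_self {d : ℕ} (U : Subgroup (ZMod d)ˣ) (K : ℕ) : NU U K ≤ K := by
  classical
  unfold NU
  refine (card_filter_le _ _).trans ?_
  rw [Nat.card_Icc]
  omega

/-- the final estimate -/
theorem fin_est {q h : ℝ} {d K j : ℕ} {N u D δ a C0 : ℝ} (hq : 1 ≤ q) (hh : 1 ≤ h) (hd : 1 ≤ d)
    (hj : 1 ≤ j) (hδ : 0 < δ) (hC0 : 0 < C0) (hD0 : 0 ≤ D)
    (hdh : (d : ℝ) ^ (2 / 3 : ℝ) * q ^ δ ≤ h) (hU : u * h ≤ d)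
    (hKx : (K : ℝ) ^ j ≤ h ^ 2 * q ^ (-δ)) (hxK : h ^ 2 * q ^ (-δ) < (K : ℝ) ^ (j + 1))
    (hK1 : 1 ≤ K) (hja : j * a ≤ δ / 2) (hD : D ≤ C0 * q ^ (a / 2))
    (hmain : N ^ j ≤ u * ((K : ℝ) ^ j / d + 1) * D ^ j) :
    N ≤ (2 * C0) * (K : ℝ) ^ (1 / 2 : ℝ) * q ^ (-(a / 2)) := by
  have hq0 : (0 : ℝ) < q := by linarith
  have hh0 : (0 : ℝ) < h := by linarith
  have hd0 : (0 : ℝ) < d := by exact_mod_cast hd
  have hK0 : (1 : ℝ) ≤ K := by exact_mod_cast hK1
  obtain ⟨w, hw⟩ : ∃ w : ℝ, w = q ^ (-(δ / 2)) := ⟨_, rfl⟩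
  have hw0 : 0 < w := by rw [hw]; positivity
  have hw2 : w ^ 2 = q ^ (-δ) := by
    rw [hw, ← Real.rpow_natCast, ← Real.rpow_mul hq0.le]
    congr 1
    push_cast
    ring
  obtain ⟨s, hs⟩ : ∃ s : ℝ, s = ((K : ℝ) ^ (1 / 2 : ℝ)) ^ j := ⟨_, rfl⟩
  have hs0 : 0 < s := by rw [hs]; positivity
  have hs2 : s ^ 2 = (K : ℝ) ^ j := by
    rw [hs, ← pow_mul, mul_comm, pow_mul, ← Real.rpow_natCast ((K : ℝ) ^ (1 / 2 : ℝ)) 2,
      ← Real.rpow_mul (by positivity)]
    norm_num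
  obtain ⟨r, hr⟩ : ∃ r : ℝ, r = (q ^ (-a)) ^ j := ⟨_, rfl⟩
  have hr0 : 0 < r := by rw [hr]; positivity
  have hwr : w ≤ r := by
    rw [hw, hr, ← Real.rpow_natCast, ← Real.rpow_mul hq0.le]
    refine Real.rpow_le_rpow_of_exponent_le hq ?_
    linarith
  have hw1 : w ≤ 1 := by
    rw [hw]
    exact Real.rpow_le_one_of_one_le_of_nonpos hq (by linarith)
  -- first term
  have h1 : s ≤ h * w := by
    refine le_of_sq_le_sq ?_ (by positivity)
    rw [hs2, mul_pow, hw2]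
    exact hKx
  have h2 : (K : ℝ) ^ j ≤ h * (s * r) := by
    rw [← hs2, sq]
    calc s * s ≤ s * (h * w) := mul_le_mul_of_nonneg_left h1 hs0.le
      _ ≤ s * (h * r) := by gcongr
      _ = h * (s * r) := by ring
  -- second term
  have h3 : h * w < (K : ℝ) ^ j := by
    refine lt_of_pow_lt_pow_left₀ 2 (by positivity) ?_
    rw [mul_pow, hw2]
    refine hxK.trans_le ?_
    rw [← pow_mul]
    exact pow_le_pow_right₀ hK0 (by omega)
  have h4 : (d : ℝ) ^ 2 ≤ h ^ 3 * w ^ 6 := by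
    have h5 : ((d : ℝ) ^ (2 / 3 : ℝ) * q ^ δ) ^ 3 ≤ h ^ 3 := by gcongr
    have h6 : ((d : ℝ) ^ (2 / 3 : ℝ)) ^ 3 = (d : ℝ) ^ 2 := by
      rw [← Real.rpow_natCast, ← Real.rpow_mul hd0.le]
      norm_num
    have h7 : q ^ δ * w ^ 2 = 1 := by
      rw [hw2, ← Real.rpow_add hq0]
      simp
    rw [mul_pow, h6] at h5
    calc (d : ℝ) ^ 2 = ((d : ℝ) ^ 2 * (q ^ δ) ^ 3) * (w ^ 2) ^ 3 := by
          have : (q ^ δ) ^ 3 * (w ^ 2) ^ 3 = 1 := by rw [← mul_pow, h7, one_pow]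
          rw [mul_assoc, this, mul_one]
      _ ≤ h ^ 3 * (w ^ 2) ^ 3 := by gcongr
      _ = h ^ 3 * w ^ 6 := by ring
  have h8 : (d : ℝ) ≤ h * (s * r) := by
    refine le_of_sq_le_sq ?_ (by positivity)
    calc (d : ℝ) ^ 2 ≤ h ^ 3 * w ^ 6 := h4
      _ ≤ h ^ 3 * w ^ 3 := by
          refine mul_le_mul_of_nonneg_left ?_ (by positivity)
          exact pow_le_pow_of_le_one hw0.le hw1 (by norm_num)
      _ = h ^ 2 * ((h * w) * w ^ 2) := by ring
      _ ≤ h ^ 2 * ((K : ℝ) ^ j * r ^ 2) := by gcongr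
      _ = (h * (s * r)) ^ 2 := by rw [← hs2]; ring
  -- the sum
  have h9 : u * ((K : ℝ) ^ j / d + 1) ≤ 2 * (s * r) := by
    have h10 : u ≤ d / h := by rwa [le_div_iff₀ hh0]
    calc u * ((K : ℝ) ^ j / d + 1) ≤ d / h * ((K : ℝ) ^ j / d + 1) := by gcongr
      _ = ((K : ℝ) ^ j + d) / h := by field_simp
      _ ≤ (h * (s * r) + h * (s * r)) / h := by gcongr
      _ = 2 * (s * r) := by field_simp; ring
  have h11 : N ^ j ≤ ((2 * C0) * (K : ℝ) ^ (1 / 2 : ℝ) * q ^ (-(a / 2))) ^ j := by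
    calc N ^ j ≤ u * ((K : ℝ) ^ j / d + 1) * D ^ j := hmain
      _ ≤ 2 * (s * r) * (C0 * q ^ (a / 2)) ^ j := by gcongr
      _ = 2 * (C0 * (K : ℝ) ^ (1 / 2 : ℝ) * (q ^ (-a) * q ^ (a / 2))) ^ j := by
          rw [hs, hr]
          simp only [mul_pow]
          ring
      _ = 2 * (C0 * (K : ℝ) ^ (1 / 2 : ℝ) * q ^ (-(a / 2))) ^ j := by
          rw [← Real.rpow_add hq0]
          congr 4
          ring
      _ ≤ 2 ^ j * (C0 * (K : ℝ) ^ (1 / 2 : ℝ) * q ^ (-(a / 2))) ^ j := by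
          refine mul_le_mul_of_nonneg_right ?_ (by positivity)
          calc (2 : ℝ) = 2 ^ 1 := by norm_num
            _ ≤ 2 ^ j := pow_le_pow_right₀ (by norm_num) hj
      _ = _ := by
          rw [← mul_pow]
          congr 1
          ring
  exact le_of_pow_le_pow_left₀ (by omega) (by positivity) h11

/-- **SUB** -/
theorem sub : S_SUB := by
  intro δ κ hδ hκ
  obtain ⟨a, ha⟩ : ∃ a : ℝ, a = κ * δ / 4 := ⟨_, rfl⟩
  have ha0 : 0 < a := by rw [ha]; positivity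
  obtain ⟨C0, hC0, hdiv⟩ := Pool.Agent.Helper112.divisor_bound (a / 4) (by positivity)
  refine ⟨a / 2, 2 * C0 + 1, by positivity, by positivity, ?_⟩
  intro q d _ h hdq hqh hdh U hU K hK1 hK2
  have hd1 : 1 ≤ d := Nat.one_le_iff_ne_zero.2 (NeZero.ne d)
  have hq1 : 1 ≤ q := hd1.trans hdq
  have hq1r : (1 : ℝ) ≤ q := by exact_mod_cast hq1
  have hq0 : (0 : ℝ) < q := by linarith
  have hh : 1 ≤ h := (Real.one_le_rpow hq1r (by positivity)).trans hqh
  have hU1 : (1 : ℝ) ≤ Nat.card U := by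
    have : 0 < Nat.card U := Nat.card_pos
    exact_mod_cast this
  have hhd : h ≤ d := by nlinarith
  have hhq : h ≤ q := hhd.trans (by exact_mod_cast hdq)
  have hK1' : (1 : ℝ) ≤ K := (Real.one_le_rpow hq1r hκ.le).trans hK1
  have hK1n : 1 ≤ K := by exact_mod_cast hK1'
  have hqδ : (q : ℝ) ^ (-δ) ≤ 1 := Real.rpow_le_one_of_one_le_of_nonpos hq1r (by linarith)
  have hx2 : h ^ 2 * (q : ℝ) ^ (-δ) ≤ (q : ℝ) ^ 2 := by
    calc h ^ 2 * (q : ℝ) ^ (-δ) ≤ h ^ 2 * 1 := by gcongr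
      _ ≤ (q : ℝ) ^ 2 := by rw [mul_one]; gcongr
  rcases Nat.eq_or_lt_of_le hq1 with hq | hq
  · -- `q = 1`
    have hq' : (q : ℝ) = 1 := by exact_mod_cast hq.symm
    have hK : (K : ℝ) ≤ 1 := by
      refine hK2.trans (hx2.trans ?_)
      rw [hq']
      norm_num
    have hKe : (K : ℝ) = 1 := le_antisymm hK hK1'
    have h1 : (NU U K : ℝ) ≤ K := by exact_mod_cast NU_le_self U K
    rw [hq', hKe, Real.one_rpow, Real.one_rpow]
    linarith
  · have hlq : 0 < Real.log q := Real.log_pos (by exact_mod_cast hq)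
    have hlK : κ * Real.log q ≤ Real.log K := by
      rw [← Real.log_rpow hq0]
      exact Real.log_le_log (by positivity) hK1
    have hlK0 : 0 < Real.log K := lt_of_lt_of_le (by positivity) hlK
    have hx0 : 0 < h ^ 2 * (q : ℝ) ^ (-δ) := by positivity
    obtain ⟨j, hj⟩ : ∃ j : ℕ, j = ⌊Real.log (h ^ 2 * (q : ℝ) ^ (-δ)) / Real.log K⌋₊ := ⟨_, rfl⟩
    have hlx : Real.log K ≤ Real.log (h ^ 2 * (q : ℝ) ^ (-δ)) :=
      Real.log_le_log (by linarith) hK2
    have hj1 : 1 ≤ j := by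
      rw [hj]
      refine Nat.le_floor ?_
      rw [Nat.cast_one, le_div_iff₀ hlK0, one_mul]
      exact hlx
    have hjle : (j : ℝ) ≤ Real.log (h ^ 2 * (q : ℝ) ^ (-δ)) / Real.log K := by
      rw [hj]
      exact Nat.floor_le (by
        refine div_nonneg ?_ hlK0.le
        linarith)
    have hjlt : Real.log (h ^ 2 * (q : ℝ) ^ (-δ)) / Real.log K < j + 1 := by
      rw [hj]
      exact Nat.lt_floor_add_one _
    rw [le_div_iff₀ hlK0] at hjle
    rw [div_lt_iff₀ hlK0] at hjlt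
    have hKx : (K : ℝ) ^ j ≤ h ^ 2 * (q : ℝ) ^ (-δ) := by
      rw [← Real.log_le_log_iff (by positivity) hx0, Real.log_pow]
      exact hjle
    have hxK : h ^ 2 * (q : ℝ) ^ (-δ) < (K : ℝ) ^ (j + 1) := by
      rw [← Real.log_lt_log_iff hx0 (by positivity), Real.log_pow]
      push_cast
      exact hjlt
    have hja : j * a ≤ δ / 2 := by
      have h1 : (j : ℝ) * (κ * Real.log q) ≤ 2 * Real.log q := by
        calc (j : ℝ) * (κ * Real.log q) ≤ j * Real.log K := by gcongr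
          _ ≤ Real.log (h ^ 2 * (q : ℝ) ^ (-δ)) := hjle
          _ ≤ Real.log ((q : ℝ) ^ 2) := Real.log_le_log hx0 hx2
          _ = 2 * Real.log q := by rw [Real.log_pow]; push_cast; ring
      have h2 : (j : ℝ) * κ ≤ 2 := by
        have : ((j : ℝ) * κ) * Real.log q ≤ 2 * Real.log q := by linarith
        exact le_of_mul_le_mul_right this hlq
      rw [ha]
      have : (j : ℝ) * κ * δ ≤ 2 * δ := by gcongr
      linarith
    have hDb : ∀ n, 1 ≤ n → n ≤ K ^ j → n.divisors.card ≤ ⌊C0 * (q : ℝ) ^ (a / 2)⌋₊ := by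
      intro n hn1 hn2
      refine Nat.le_floor ((hdiv n hn1).trans ?_)
      refine mul_le_mul_of_nonneg_left ?_ hC0.le
      have h1 : (n : ℝ) ≤ (q : ℝ) ^ 2 := by
        have : (n : ℝ) ≤ (K : ℝ) ^ j := by exact_mod_cast hn2
        exact this.trans (hKx.trans hx2)
      calc (n : ℝ) ^ (a / 4) ≤ ((q : ℝ) ^ 2) ^ (a / 4) :=
            Real.rpow_le_rpow (by positivity) h1 (by positivity)
        _ = (q : ℝ) ^ (a / 2) := by
            rw [← Real.rpow_natCast, ← Real.rpow_mul hq0.le]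
            congr 1
            push_cast
            ring
    have hmain := NU_pow U K j _ hDb
    have hmain' : (NU U K : ℝ) ^ j ≤ (Nat.card U : ℝ) * ((K : ℝ) ^ j / d + 1) *
        ((⌊C0 * (q : ℝ) ^ (a / 2)⌋₊ : ℕ) : ℝ) ^ j := by
      have h1 : ((NU U K ^ j : ℕ) : ℝ) ≤
          ((Nat.card U * (K ^ j / d + 1) * ⌊C0 * (q : ℝ) ^ (a / 2)⌋₊ ^ j : ℕ) : ℝ) := by
        exact_mod_cast hmain
      push_cast at h1
      refine h1.trans ?_
      gcongr
      have : ((K ^ j / d : ℕ) : ℝ) ≤ ((K ^ j : ℕ) : ℝ) / d := Nat.cast_div_le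
      push_cast at this
      exact this
    have hfin := fin_est hq1r hh hd1 hj1 hδ hC0 (Nat.cast_nonneg _) hdh hU hKx hxK hK1n hja (Nat.floor_le (by positivity)) hmain'
    refine hfin.trans ?_
    gcongr
    linarith

end Pool.Agent.Y655.R8
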